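import Pool.Agent.H25.DP.Targets
import Pool.Agent.H92.DL.FU
import Pool.Agent.H89.Cubic.Div

/-!
# PX: a product of blocks of the same dilation is a Dirichlet polynomial
-/

set_option autoImplicit false

open Complex MeasureTheory Set

namespace Pool.Agent.H59.DP

open Pool.Agent.H25.DL Pool.Agent.H25.DP

theorem px : T_PX := by
  classical
  intro ι _ f a ε hf hε
  set k : ℕ := Fintype.card ι with hk
  set δ : ℝ := ε / (k + 1) with hδ
  have hδ0 : 0 < δ := by positivity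
  have hδk : δ * k ≤ ε := by
    rw [hδ, div_mul_eq_mul_div, div_le_iff₀ (by positivity)]
    nlinarith
  obtain ⟨C₀, hC₀, hdiv⟩ := Pool.Agent.H89.Cubic.div_bound δ hδ0
  refine ⟨C₀ ^ k * ((2 : ℝ) ^ (k + 1)) ^ ε, by positivity, fun j => ?_⟩
  set S := Fintype.piFinset (fun l => Finset.Ico (2 ^ (j l)) (2 ^ (j l + 1))) with hS
  set b : (ι → ℕ) → ℂ := fun x =>
    ∏ l, (f l).c (x l) * ((x l : ℕ) : ℂ) ^ (-(1 / 2 + (f l).τ * I : ℂ)) with hb
  have hSZ1 : (1 : ℝ) ≤ SZ j := by exact_mod_cast SZ_pos j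
  have hxpos : ∀ x ∈ S, ∀ l, 0 < x l := by
    intro x hx l
    rw [hS, Fintype.mem_piFinset] at hx
    exact lt_of_lt_of_le (by positivity) (Finset.mem_Ico.1 (hx l)).1
  have hlow : ∀ x ∈ S, SZ j ≤ ∏ l, x l := by
    intro x hx
    rw [hS, Fintype.mem_piFinset] at hx
    exact Finset.prod_le_prod' fun l _ => (Finset.mem_Ico.1 (hx l)).1
  have hup : ∀ x ∈ S, ∏ l, x l < 2 ^ (k + 1) * SZ j := by
    intro x hx
    rw [hS, Fintype.mem_piFinset] at hx
    have h1 : ∏ l, x l ≤ ∏ l, 2 ^ (j l + 1) :=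
      Finset.prod_le_prod' fun l _ => (Finset.mem_Ico.1 (hx l)).2.le
    have h2 : ∏ l, 2 ^ (j l + 1) = 2 ^ k * SZ j := by
      unfold SZ
      simp_rw [pow_succ]
      rw [Finset.prod_mul_distrib, Finset.prod_const, Finset.card_univ, mul_comm]
    have h3 : 0 < SZ j := SZ_pos j
    calc ∏ l, x l ≤ 2 ^ k * SZ j := by rw [← h2]; exact h1
      _ < 2 ^ (k + 1) * SZ j := by
        rw [pow_succ]
        have : 0 < 2 ^ k * SZ j := by positivity
        nlinarith
  refine ⟨fun n => ∑ x ∈ S with ∏ l, x l = n, b x, ?_, ?_⟩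
  · intro n
    rcases (S.filter fun x => ∏ l, x l = n).eq_empty_or_nonempty with he | ⟨x₀, hx₀⟩
    · simp only
      rw [he, Finset.sum_empty, norm_zero]
      positivity
    rw [Finset.mem_filter] at hx₀
    have hn1 : SZ j ≤ n := by rw [← hx₀.2]; exact hlow x₀ hx₀.1
    have hn2 : n < 2 ^ (k + 1) * SZ j := by rw [← hx₀.2]; exact hup x₀ hx₀.1
    have hn0 : 1 ≤ n := (SZ_pos j).trans hn1
    have hnR : (SZ j : ℝ) ≤ n := by exact_mod_cast hn1
    have hnR2 : (n : ℝ) ≤ (2 : ℝ) ^ (k + 1) * SZ j := by exact_mod_cast hn2.le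
    have hterm : ∀ x ∈ S.filter (fun x => ∏ l, x l = n), ‖b x‖ ≤ (SZ j : ℝ) ^ (-(1 / 2) : ℝ) := by
      intro x hx
      rw [Finset.mem_filter] at hx
      rw [hb]
      simp only
      rw [norm_prod]
      calc ∏ l, ‖(f l).c (x l) * ((x l : ℕ) : ℂ) ^ (-(1 / 2 + (f l).τ * I : ℂ))‖
          ≤ ∏ l, ((x l : ℕ) : ℝ) ^ (-(1 / 2) : ℝ) := by
            refine Finset.prod_le_prod (fun l _ => norm_nonneg _) fun l _ => ?_
            exact Pool.Agent.H92.DL.norm_coef (x l) (hxpos x hx.1 l) _ ((f l).c_le _) _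
        _ = (∏ l, ((x l : ℕ) : ℝ)) ^ (-(1 / 2) : ℝ) :=
            Real.finsetProd_rpow _ _ (fun l _ => by positivity) _
        _ = (n : ℝ) ^ (-(1 / 2) : ℝ) := by
            rw [← Nat.cast_prod, hx.2]
        _ ≤ (SZ j : ℝ) ^ (-(1 / 2) : ℝ) :=
            Real.rpow_le_rpow_of_nonpos (by linarith) hnR (by norm_num)
    have hcard : ((S.filter fun x => ∏ l, x l = n).card : ℝ) ≤ (n.divisors.card : ℝ) ^ k := by
      have h1 : (S.filter fun x => ∏ l, x l = n) ⊆ Fintype.piFinset (fun _ : ι => n.divisors) := by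
        intro x hx
        rw [Finset.mem_filter] at hx
        rw [Fintype.mem_piFinset]
        intro l
        rw [Nat.mem_divisors]
        refine ⟨?_, by omega⟩
        rw [← hx.2]
        exact Finset.dvd_prod_of_mem _ (Finset.mem_univ l)
      have h2 := Finset.card_le_card h1
      rw [Fintype.card_piFinset, Finset.prod_const, Finset.card_univ] at h2
      exact_mod_cast h2
    have hd : (n.divisors.card : ℝ) ^ k ≤ C₀ ^ k * ((2 : ℝ) ^ (k + 1)) ^ ε * (SZ j : ℝ) ^ ε := by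
      have h1 : (n.divisors.card : ℝ) ≤ C₀ * (n : ℝ) ^ δ := hdiv n hn0
      have hnpos : (0 : ℝ) < n := by linarith
      have h1n : (1 : ℝ) ≤ n := by linarith
      calc (n.divisors.card : ℝ) ^ k ≤ (C₀ * (n : ℝ) ^ δ) ^ k := by gcongr
        _ = C₀ ^ k * (n : ℝ) ^ (δ * k) := by
            rw [mul_pow, ← Real.rpow_natCast ((n : ℝ) ^ δ), ← Real.rpow_mul hnpos.le]
        _ ≤ C₀ ^ k * (n : ℝ) ^ ε := by
            gcongr
        _ ≤ C₀ ^ k * ((2 : ℝ) ^ (k + 1) * SZ j) ^ ε := by gcongr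
        _ = C₀ ^ k * ((2 : ℝ) ^ (k + 1)) ^ ε * (SZ j : ℝ) ^ ε := by
            rw [Real.mul_rpow (by positivity) (by positivity)]
            ring
    calc ‖∑ x ∈ S with ∏ l, x l = n, b x‖
        ≤ ∑ x ∈ S with ∏ l, x l = n, ‖b x‖ := norm_sum_le _ _
      _ ≤ ∑ x ∈ S with ∏ l, x l = n, (SZ j : ℝ) ^ (-(1 / 2) : ℝ) := Finset.sum_le_sum hterm
      _ = ((S.filter fun x => ∏ l, x l = n).card : ℝ) * (SZ j : ℝ) ^ (-(1 / 2) : ℝ) := by
          rw [Finset.sum_const, nsmul_eq_mul]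
      _ ≤ (C₀ ^ k * ((2 : ℝ) ^ (k + 1)) ^ ε * (SZ j : ℝ) ^ ε) * (SZ j : ℝ) ^ (-(1 / 2) : ℝ) := by
          gcongr
          exact hcard.trans hd
      _ = C₀ ^ k * ((2 : ℝ) ^ (k + 1)) ^ ε * (SZ j : ℝ) ^ (ε - 1 / 2) := by
          rw [mul_assoc, ← Real.rpow_add (by linarith)]
          congr 2
  · intro t
    rw [Pool.Agent.H92.DL.Pj_eq]
    have hmaps : ∀ x ∈ S, ∏ l, x l ∈ Finset.Ico (SZ j) (2 ^ (k + 1) * SZ j) := by
      intro x hx
      rw [Finset.mem_Ico]
      exact ⟨hlow x hx, hup x hx⟩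
    have hen : ∀ x ∈ S, cexp (((-(t * ∑ l, (f l).r * Real.log (x l))) : ℝ) * I) =
        en (∏ l, x l) (a * t) := by
      intro x hx
      unfold en
      congr 2
      have h1 : Real.log ((∏ l, x l : ℕ) : ℝ) = ∑ l, Real.log (x l) := by
        rw [Nat.cast_prod, Real.log_prod]
        intro l _
        have := hxpos x hx l
        positivity
      rw [h1]
      congr 1
      simp_rw [hf]
      rw [← Finset.mul_sum]
      ring
    rw [← Finset.sum_fiberwise_of_maps_to hmaps]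
    refine Finset.sum_congr rfl fun n _ => ?_
    rw [Finset.sum_mul]
    refine Finset.sum_congr rfl fun x hx => ?_
    rw [Finset.mem_filter] at hx
    rw [hen x hx.1, hx.2]

end Pool.Agent.H59.DP
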